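import Pool.Agent.X103.DiscPot
import Pool.Agent.X103.Siciak

/-!
# Weak-* convergence of Bergman measures does not imply the log-asymptotics (MP_58ffb3_an)

We answer Q1 in the negative, already for `n = 1` and `K` the closed unit disc: there is a finite
measure `ν` on `K` such that `(S)` holds but `(W)` fails (even at the single point `0`).

Definitions used (all in `Pool.Agent.X103`):

* `Siciak.Subh u`: `u : ℂ → [-∞, ∞)` is subharmonic (= psh for `n = 1`);
* `Siciak.VK K`: the Siciak-Zaharjuta extremal function;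
* `Berg.IsONB ν k e`: `e 0, …, e k` are polynomials of degree at most `k`, orthonormal in `L²(ν)`;
* `Berg.bk e z = ∑ i, ‖e i (z)‖²`: the Bergman function.
-/

set_option autoImplicit false

open MeasureTheory Filter Topology Set Polynomial Real
open scoped InnerProductSpace Laplacian

namespace Pool.Agent.Results.MP_58ffb3_an.WeakNotLog

open Pool.Agent.X103 Pool.Agent.X103.Berg Pool.Agent.X103.CircMeas

/-- `μ` is the equilibrium measure belonging to the (continuous) extremal function `V`: a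
probability measure with `dd^c V = μ`, that is `Δ V = 2π μ` in the sense of distributions. -/
def IsEquilibrium (V : ℂ → ℝ) (μ : Measure ℂ) : Prop :=
  IsProbabilityMeasure μ ∧ ∀ φ : ℂ → ℝ, ContDiff ℝ (⊤ : ℕ∞) φ → HasCompactSupport φ →
    ∫ z : ℂ, V z * Δ φ z = 2 * Real.pi * ∫ z, φ z ∂μ

/-- The measures admitted in the problem: finite, carried by `K`, and such that the
`L²(ν)`-seminorm is a norm on polynomials. -/
def Admissible (K : Set ℂ) (ν : Measure ℂ) : Prop :=
  IsFiniteMeasure ν ∧ ν Kᶜ = 0 ∧ ∀ p : ℂ[X], p ≠ 0 → 0 < ∫ z, ‖p.eval z‖ ^ 2 ∂ν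

/-- Property (S): `N_k⁻¹ B_k ν → μ` weak-*, where `B_k` is computed with the bases `e k`. -/
def PropS (ν μ : Measure ℂ) (e : ∀ k : ℕ, Fin (k + 1) → ℂ[X]) : Prop :=
  ∀ f : ℂ → ℝ, Continuous f →
    Tendsto (fun k : ℕ => ∫ z, f z * (bk (e k) z / (k + 1)) ∂ν) atTop (𝓝 (∫ z, f z ∂μ))

/-- Property (W): `(2k)⁻¹ log B_k → V` locally uniformly. -/
def PropW (V : ℂ → ℝ) (e : ∀ k : ℕ, Fin (k + 1) → ℂ[X]) : Prop :=
  TendstoLocallyUniformly (fun (k : ℕ) (z : ℂ) => Real.log (bk (e k) z) / (2 * k)) V atTop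

lemma carried : (tail 0) (Metric.closedBall (0 : ℂ) 1)ᶜ = 0 := by
  have h := (tail_nice 0).supp
  rw [ae_iff] at h
  refine measure_mono_null (fun z hz => ?_) h
  simp only [mem_compl_iff, mem_closedBall_zero_iff, not_le] at hz
  rw [mem_ofPred_eq]
  exact hz.ne'

lemma propS {e : ∀ k : ℕ, Fin (k + 1) → ℂ[X]} (he : ∀ k, IsONB (tail 0) k (e k)) :
    PropS (tail 0) arc e := by
  intro f hf
  have hN := tail_nice 0
  refine weak_conv hN (b := fun k z => bk (e k) z / (k + 1)) ?_ ?_ ?_ ?_ hf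
  · exact fun k => (bk_cont (e k)).div_const _
  · exact fun k z => div_nonneg (bk_nonneg _ _) (by positivity)
  · intro k
    have h1 := int_bk hN (he k).orth
    rw [Fintype.card_fin] at h1
    rw [integral_div, h1]
    push_cast
    exact div_self (by positivity)
  · intro m hm
    have hmJ : m < 2 ^ (m + 1) := (Nat.lt_two_pow_self).trans
      (Nat.pow_lt_pow_right (by norm_num) (Nat.lt_succ_self m))
    have hb : ∀ k : ℕ, ‖∫ z, z ^ m * ((bk (e k) z / (k + 1) : ℝ) : ℂ) ∂(tail 0)‖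
        ≤ (2 * 2 ^ m) / ((k : ℝ) + 1) := by
      intro k
      have h1 := moment_bound hm hmJ (he k)
      have h2 : ∫ z, z ^ m * ((bk (e k) z / (k + 1) : ℝ) : ℂ) ∂(tail 0)
          = (∫ z, z ^ m * (bk (e k) z : ℂ) ∂(tail 0)) / ((k : ℂ) + 1) := by
        rw [← integral_div]
        congr 1
        funext z
        push_cast
        ring
      rw [h2, norm_div]
      have h3 : ‖(k : ℂ) + 1‖ = (k : ℝ) + 1 := by
        have : (k : ℂ) + 1 = (((k : ℝ) + 1 : ℝ) : ℂ) := by push_cast; ring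
        rw [this, Complex.norm_real, Real.norm_eq_abs, abs_of_pos (by positivity)]
      rw [h3]
      exact div_le_div_of_nonneg_right h1 (by positivity)
    refine squeeze_zero_norm hb ?_
    have h4 : Tendsto (fun k : ℕ => (k : ℝ) + 1) atTop atTop :=
      tendsto_natCast_atTop_atTop.atTop_add tendsto_const_nhds
    exact h4.const_div_atTop _

lemma not_propW {e : ∀ k : ℕ, Fin (k + 1) → ℂ[X]} (he : ∀ k, IsONB (tail 0) k (e k)) :
    ¬ PropW (fun z => log⁺ ‖z‖) e := by
  intro h
  have h0 := tendstoLocallyUniformlyOn_univ.2 h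
  have h1 := h0.tendsto_at (mem_univ (0 : ℂ))
  have h2 : log⁺ ‖(0 : ℂ)‖ = 0 := by simp
  simp only [h2] at h1
  have h3 : Tendsto (fun J : ℕ => 2 ^ J) atTop (atTop : Filter ℕ) :=
    tendsto_pow_atTop_atTop_of_one_lt (by norm_num)
  have h4 := h1.comp h3
  have h5 := h4.eventually (gt_mem_nhds (show (0 : ℝ) < 1 by norm_num))
  obtain ⟨J, hJ⟩ := h5.exists
  simp only [Function.comp] at hJ
  have h6 := bk_big J (he (2 ^ J))
  have h7 : Real.log (Real.exp (4 * 2 ^ J) / 4) ≤ Real.log (bk (e (2 ^ J)) 0) :=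
    Real.log_le_log (by positivity) h6
  rw [Real.log_div (Real.exp_pos _).ne' (by norm_num), Real.log_exp] at h7
  have h8 : Real.log 4 < 2 := by
    have : (4 : ℝ) = 2 ^ 2 := by norm_num
    rw [this, Real.log_pow]
    have := Real.log_two_lt_d9
    push_cast; linarith
  have h9 : (1 : ℝ) ≤ 2 ^ J := one_le_pow₀ (by norm_num)
  push_cast at hJ
  rw [div_lt_one (by positivity)] at hJ
  linarith

/-- **Negative answer to Q1.** For `K` the closed unit disc of `ℂ`, whose extremal function is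
`V = log⁺ |z|` (continuous), there is an admissible measure `ν` such that, with respect to every
choice of orthonormal bases, property (S) holds and property (W) fails. -/
theorem result : ∃ (K : Set ℂ) (V : ℂ → ℝ) (μ ν : Measure ℂ),
    IsCompact K ∧ (∀ z, Siciak.VK K z = (V z : EReal)) ∧ Continuous V ∧ IsEquilibrium V μ ∧
    Admissible K ν ∧ (∀ k, ∃ e, IsONB ν k e) ∧
    ∀ e : ∀ k : ℕ, Fin (k + 1) → ℂ[X], (∀ k, IsONB ν k (e k)) →
      PropS ν μ e ∧ ¬ PropW V e := by
  refine ⟨Metric.closedBall 0 1, fun z => log⁺ ‖z‖, arc, tail 0, isCompact_closedBall 0 1,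
    Siciak.VK_disc, Siciak.cont_pl, ⟨arc_prob, fun φ hφ hc => ?_⟩,
    ⟨(tail_nice 0).fin, carried, (tail_nice 0).nondeg⟩, exists_onb (tail_nice 0),
    fun e he => ⟨propS he, not_propW he⟩⟩
  have h2 : ((2 : ℕ∞) : WithTop ℕ∞) ≤ ((⊤ : ℕ∞) : WithTop ℕ∞) := WithTop.coe_le_coe.2 le_top
  exact DiscPot.ddc (hφ.of_le h2) hc

end Pool.Agent.Results.MP_58ffb3_an.WeakNotLog
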